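import Pool.Agent.Lib.MP_3d374d_co.Word

set_option autoImplicit false

namespace Pool.Agent.Lib.MP_3d374d_co

/-- The extension of a finite word by zeros. -/
def ext (w : List (Fin 4)) (i : ℕ) : Fin 4 := w.getD i 0

theorem cnt_ext (w : List (Fin 4)) (x : Fin 4) : cnt (ext w) x 0 w.length = w.count x := by
  unfold cnt
  induction w with
  | nil => simp
  | cons y w ih =>
    rw [List.length_cons, Finset.sum_range_succ', List.count_cons, ← ih]
    simp only [zero_add]
    congr 1
    simp [ext]

theorem occ_infix {w : List (Fin 4)} {p l : ℕ} {v : List (Fin 4)} (hv : v.length = l)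
    (hp : p + l ≤ w.length) (h : ∀ k < l, v.getD k 0 = ext w (p + k)) : v <:+: w := by
  have e : v = (w.drop p).take l := by
    apply List.ext_getElem
    · rw [List.length_take, List.length_drop]; omega
    · intro i h1 h2
      have h3 := h i (by omega)
      rw [List.getElem_take, List.getElem_drop]
      rw [List.getD_eq_getElem _ _ h1, ext, List.getD_eq_getElem _ _ (by omega)] at h3
      exact h3
  rw [e]
  exact (List.take_prefix _ _).isInfix.trans (List.drop_suffix _ _).isInfix

theorem getD_map_range (f : ℕ → Fin 4) (l k : ℕ) (hk : k < l) :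
    ((List.range l).map f).getD k 0 = f k := by
  rw [List.getD_eq_getElem _ _ (by simpa using hk)]
  simp

theorem occ_append {w : List (Fin 4)} {p la lb : ℕ} {f g : ℕ → Fin 4}
    (hp : p + la + lb ≤ w.length) (h1 : ∀ k < la, f k = ext w (p + k))
    (h2 : ∀ k < lb, g k = ext w (p + la + k)) :
    (List.range la).map f ++ (List.range lb).map g <:+: w := by
  apply occ_infix (l := la + lb) (p := p) (by simp) (by omega)
  intro k hk
  by_cases hk' : k < la
  · rw [List.getD_append _ _ _ _ (by simpa using hk'), getD_map_range _ _ _ hk', h1 k hk']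
  · rw [List.getD_append_right _ _ _ _ (by simpa using (not_lt.1 hk'))]
    simp only [List.length_map, List.length_range]
    rw [getD_map_range _ _ _ (by omega), h2 _ (by omega)]
    congr 1
    omega

theorem inst_triple {w : List (Fin 4)} {n : ℕ} (h : Inst (ext w) 0 w.length n) :
    ∃ A B C : List (Fin 4), (A ≠ [] ∧ B ≠ [] ∧ C ≠ []) ∧
      (A.length ≤ n ∧ B.length ≤ n ∧ C.length ≤ n) ∧ ∀ f ∈ five A B C, f <:+: w := by
  obtain ⟨la, lb, lc, p1, p2, p3, p4, p5, ⟨a1, a2, b1, b2, c1, c2⟩, h2, h3, h4, h5⟩ := h
  refine ⟨(List.range la).map (fun k => ext w (p1 + k)), (List.range lb).map (fun k => ext w (p2 + k)),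
    (List.range lc).map (fun k => ext w (p3 + k)), ⟨?_, ?_, ?_⟩, ⟨?_, ?_, ?_⟩, ?_⟩
  · intro h
    have := congrArg List.length h
    simp at this; omega
  · intro h
    have := congrArg List.length h
    simp at this; omega
  · intro h
    have := congrArg List.length h
    simp at this; omega
  · simpa using a2
  · simpa using b2
  · simpa using c2
  · intro f hf
    simp only [five, List.mem_cons, List.not_mem_nil, or_false] at hf
    rcases hf with rfl | rfl | rfl | rfl | rfl
    · apply occ_append (p := p1) (by omega) (fun k hk => rfl)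
      intro k hk
      exact (h4 k hk).1.symm
    · apply occ_append (p := p2) (by omega) (fun k hk => rfl)
      intro k hk
      exact (h5 k hk).1.symm
    · apply occ_append (p := p3) (by omega) (fun k hk => rfl)
      intro k hk
      exact (h3 k hk).1
    · apply occ_append (p := p4) (by omega)
      · intro k hk
        exact (h4 k hk).1.symm.trans (h4 k hk).2
      · intro k hk
        exact (h3 k hk).2.1
    · apply occ_append (p := p5) (by omega)
      · intro k hk
        exact (h3 k hk).2.2
      · intro k hk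
        exact (h5 k hk).1.symm.trans (h5 k hk).2

/-- The lower bound. -/
theorem lower (ε : ℝ) (hε : 0 < ε) : ∃ C : ℝ, ∀ w : List (Fin 4), Av w →
    (1 / 4 - ε) * w.length - C ≤ w.count 3 := by
  obtain ⟨t, ht⟩ : ∃ t : ℕ, (1 / 2 : ℝ) ^ t < ε := exists_pow_lt_of_lt_one hε (by norm_num)
  obtain ⟨C₀, hC₀, hden⟩ := density t
  set n := 30 * 2 ^ t with hn
  have hfin : (({A | A.length ≤ n} : Set (List (Fin 4))) ×ˢ (({A | A.length ≤ n} : Set (List (Fin 4))) ×ˢ
      ({A | A.length ≤ n} : Set (List (Fin 4))))).Finite :=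
    (List.finite_length_le (Fin 4) n).prod
      ((List.finite_length_le (Fin 4) n).prod (List.finite_length_le (Fin 4) n))
  classical
  set T : Finset (List (Fin 4) × List (Fin 4) × List (Fin 4)) :=
    hfin.toFinset.filter (fun t => t.1 ≠ [] ∧ t.2.1 ≠ [] ∧ t.2.2 ≠ []) with hTdef
  have hT : ∀ t ∈ T, t.1 ≠ [] ∧ t.2.1 ≠ [] ∧ t.2.2 ≠ [] := fun t ht => (Finset.mem_filter.1 ht).2
  obtain ⟨C, hC⟩ := induct (fun w : List (Fin 4) => (1 / 4 - ε) * w.length - w.count 3)
    (by intro u v; simp only [List.length_append, List.count_append]; push_cast; ring)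
    (by
      intro x
      have : (0 : ℝ) ≤ ([x].count 3 : ℝ) := by positivity
      simp only [List.length_singleton]
      push_cast
      linarith)
    T hT C₀
    (by
      intro w _ hw
      have hI : ¬ Inst (ext w) 0 (0 + w.length) n := by
        intro h
        rw [zero_add] at h
        obtain ⟨A, B, C, h1, h2, h3⟩ := inst_triple h
        have hmem : (A, B, C) ∈ T := by
          rw [hTdef, Finset.mem_filter]
          refine ⟨?_, h1⟩
          rw [Set.Finite.mem_toFinset]
          exact ⟨h2.1, h2.2.1, h2.2.2⟩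
        obtain ⟨f, hf, hf'⟩ := hw _ hmem
        exact hf' (h3 f hf)
      have h1 := hden (ext w) 0 w.length hI 3
      rw [cnt_ext, abs_le] at h1
      have h2 : (w.length : ℝ) / 2 ^ t ≤ ε * w.length := by
        rw [div_eq_mul_inv, mul_comm]
        apply mul_le_mul_of_nonneg_right _ (by positivity)
        have : ((2 : ℝ) ^ t)⁻¹ = (1 / 2) ^ t := by
          rw [one_div, inv_pow]
        rw [this]; exact ht.le
      have h3 := h1.1
      show (1 / 4 - ε) * (w.length : ℝ) - (w.count 3 : ℝ) ≤ C₀
      linarith)
  refine ⟨C, ?_⟩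
  intro w hw
  have := hC w hw
  linarith

/-- Positions of the pieces of a factor of the avoiding word. -/
theorem piece {k : ℕ} {s v t : List (Fin 4)} (h : (List.range k).map bw = s ++ v ++ t) :
    ∀ i < v.length, v.getD i 0 = bw (s.length + i) := by
  intro i hi
  have hlen : k = s.length + v.length + t.length := by
    have := congrArg List.length h
    simp only [List.length_map, List.length_range, List.length_append] at this
    exact this
  have h1 : (s ++ v ++ t).getD (s.length + i) 0 = v.getD i 0 := by
    rw [List.append_assoc, List.getD_append_right _ _ _ _ (by omega)]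
    have : s.length + i - s.length = i := by omega
    rw [this, List.getD_append _ _ _ _ hi]
  rw [← h1, ← h, getD_map_range _ _ _ (by omega)]

theorem bw_avoids {k : ℕ} {A B C X Y Z T s t : List (Fin 4)} (hA : A ≠ []) (hB : B ≠ [])
    (hC : C ≠ [])
    (h : s ++ (A ++ (B ++ (X ++ (B ++ (C ++ (Y ++ (C ++ (A ++ (Z ++ (B ++ (A ++ (T ++
      (A ++ C))))))))))))) ++ t = (List.range k).map bw) : False := by
  have a1 := piece (s := s) (v := A) (t := B ++ (X ++ (B ++ (C ++ (Y ++ (C ++ (A ++ (Z ++
    (B ++ (A ++ (T ++ (A ++ C))))))))))) ++ t) (by rw [← h]; simp only [List.append_assoc])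
  have b1 := piece (s := s ++ A) (v := B) (t := X ++ (B ++ (C ++ (Y ++ (C ++ (A ++ (Z ++
    (B ++ (A ++ (T ++ (A ++ C)))))))))) ++ t) (by rw [← h]; simp only [List.append_assoc])
  have b2 := piece (s := s ++ A ++ B ++ X) (v := B) (t := C ++ (Y ++ (C ++ (A ++ (Z ++
    (B ++ (A ++ (T ++ (A ++ C)))))))) ++ t) (by rw [← h]; simp only [List.append_assoc])
  have c2 := piece (s := s ++ A ++ B ++ X ++ B) (v := C) (t := Y ++ (C ++ (A ++ (Z ++
    (B ++ (A ++ (T ++ (A ++ C))))))) ++ t) (by rw [← h]; simp only [List.append_assoc])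
  have c3 := piece (s := s ++ A ++ B ++ X ++ B ++ C ++ Y) (v := C) (t := A ++ (Z ++
    (B ++ (A ++ (T ++ (A ++ C))))) ++ t) (by rw [← h]; simp only [List.append_assoc])
  have a3 := piece (s := s ++ A ++ B ++ X ++ B ++ C ++ Y ++ C) (v := A) (t := Z ++
    (B ++ (A ++ (T ++ (A ++ C)))) ++ t) (by rw [← h]; simp only [List.append_assoc])
  have b4 := piece (s := s ++ A ++ B ++ X ++ B ++ C ++ Y ++ C ++ A ++ Z) (v := B)
    (t := A ++ (T ++ (A ++ C)) ++ t) (by rw [← h]; simp only [List.append_assoc])
  have a4 := piece (s := s ++ A ++ B ++ X ++ B ++ C ++ Y ++ C ++ A ++ Z ++ B) (v := A)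
    (t := T ++ (A ++ C) ++ t) (by rw [← h]; simp only [List.append_assoc])
  have a5 := piece (s := s ++ A ++ B ++ X ++ B ++ C ++ Y ++ C ++ A ++ Z ++ B ++ A ++ T) (v := A)
    (t := C ++ t) (by rw [← h]; simp only [List.append_assoc])
  have c5 := piece (s := s ++ A ++ B ++ X ++ B ++ C ++ Y ++ C ++ A ++ Z ++ B ++ A ++ T ++ A)
    (v := C) (t := t) (by rw [← h]; simp only [List.append_assoc])
  simp only [List.length_append] at a1 b1 b2 c2 c3 a3 b4 a4 a5 c5
  have hA' := List.length_pos_of_ne_nil hA
  have hB' := List.length_pos_of_ne_nil hB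
  have hC' := List.length_pos_of_ne_nil hC
  refine no_occs _ A.length B.length C.length s.length
    (s.length + A.length + B.length + X.length)
    (s.length + A.length + B.length + X.length + B.length + C.length + Y.length)
    (s.length + A.length + B.length + X.length + B.length + C.length + Y.length + C.length
      + A.length + Z.length)
    (s.length + A.length + B.length + X.length + B.length + C.length + Y.length + C.length
      + A.length + Z.length + B.length + A.length + T.length) le_rfl hA' hB' hC' ⟨?_, ?_, ?_⟩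
  · intro i hi
    exact ⟨(a1 i hi).symm.trans (a3 i hi), (a1 i hi).symm.trans (a4 i hi),
      (a1 i hi).symm.trans (a5 i hi)⟩
  · intro i hi
    exact ⟨(b1 i hi).symm.trans (b2 i hi), (b1 i hi).symm.trans (b4 i hi)⟩
  · intro i hi
    exact ⟨(c2 i hi).symm.trans (c3 i hi), (c2 i hi).symm.trans (c5 i hi)⟩

end Pool.Agent.Lib.MP_3d374d_co
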