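import Pool.Agent.Lib.MP_3d374d_co.Tree

set_option autoImplicit false

namespace Pool.Agent.Lib.MP_3d374d_co

/-- `Inst w s e n`: the interval `[s, e)` of the infinite word `w` contains occurrences of
`AB`, `BC`, `CA`, `BA`, `AC` for nonempty words `A, B, C` of length at most `n`. -/
def Inst {α : Type*} (w : ℕ → α) (s e n : ℕ) : Prop :=
  ∃ la lb lc p1 p2 p3 p4 p5 : ℕ,
    (1 ≤ la ∧ la ≤ n ∧ 1 ≤ lb ∧ lb ≤ n ∧ 1 ≤ lc ∧ lc ≤ n) ∧
    (s ≤ p1 ∧ p1 + la + lb ≤ e ∧ s ≤ p2 ∧ p2 + lb + lc ≤ e ∧ s ≤ p3 ∧ p3 + lc + la ≤ e ∧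
      s ≤ p4 ∧ p4 + lb + la ≤ e ∧ s ≤ p5 ∧ p5 + la + lc ≤ e) ∧
    (∀ k < la, w (p1 + k) = w (p3 + lc + k) ∧ w (p1 + k) = w (p4 + lb + k) ∧
      w (p1 + k) = w (p5 + k)) ∧
    (∀ k < lb, w (p1 + la + k) = w (p2 + k) ∧ w (p1 + la + k) = w (p4 + k)) ∧
    (∀ k < lc, w (p2 + lb + k) = w (p3 + k) ∧ w (p2 + lb + k) = w (p5 + la + k))

/-- The positions `j + e, j + e + 2, j + e + 4, j + e + 6` alternate between two letters which
do not occur at the four other positions of the window `[j, j + 8)`. -/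
def AltAt {α : Type*} (w : ℕ → α) (j e : ℕ) : Prop :=
  w (j + e) ≠ w (j + e + 2) ∧ w (j + e + 4) = w (j + e) ∧ w (j + e + 6) = w (j + e + 2) ∧
    ∀ i < 4, w (j + (1 - e) + 2 * i) ≠ w (j + e) ∧ w (j + (1 - e) + 2 * i) ≠ w (j + e + 2)

/-- The window `[j, j + 8)` has period 4. -/
def Per {α : Type*} (w : ℕ → α) (j : ℕ) : Prop :=
  w (j + 4) = w j ∧ w (j + 5) = w (j + 1) ∧ w (j + 6) = w (j + 2) ∧ w (j + 7) = w (j + 3)

/-- The window `[j, j + 8)` is alternating. -/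
def Alt {α : Type*} (w : ℕ → α) (j : ℕ) : Prop :=
  (AltAt w j 0 ∨ AltAt w j 1) ∧ ¬ Per w j

theorem inst_comp {α β : Type*} (f : α → β) (hf : Function.Injective f) (w : ℕ → α)
    (s e n : ℕ) : Inst (f ∘ w) s e n ↔ Inst w s e n := by
  simp only [Inst, Function.comp, hf.eq_iff]

theorem alt_comp {α β : Type*} (f : α → β) (hf : Function.Injective f) (w : ℕ → α)
    (j : ℕ) : Alt (f ∘ w) j ↔ Alt w j := by
  simp only [Alt, AltAt, Per, Function.comp, hf.eq_iff, ne_eq]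

/-- The block of `l` base 4 digits of `U` starting at position `p`. -/
def sl (U p l : ℕ) : ℕ := U / 4 ^ p % 4 ^ l

/-- Checks a coded occurrence inside the word with `n` digits coded by `U`. -/
def okInst (U n la lb lc p1 p2 p3 p4 p5 : ℕ) : Bool :=
  Nat.ble 1 la && Nat.ble la 30 && Nat.ble 1 lb && Nat.ble lb 30 && Nat.ble 1 lc &&
  Nat.ble lc 30 && Nat.ble (p1 + la + lb) n && Nat.ble (p2 + lb + lc) n &&
  Nat.ble (p3 + lc + la) n && Nat.ble (p4 + lb + la) n && Nat.ble (p5 + la + lc) n &&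
  Nat.beq (sl U p1 la) (sl U (p3 + lc) la) && Nat.beq (sl U p1 la) (sl U (p4 + lb) la) &&
  Nat.beq (sl U p1 la) (sl U p5 la) && Nat.beq (sl U (p1 + la) lb) (sl U p2 lb) &&
  Nat.beq (sl U (p1 + la) lb) (sl U p4 lb) && Nat.beq (sl U (p2 + lb) lc) (sl U p3 lc) &&
  Nat.beq (sl U (p2 + lb) lc) (sl U (p5 + la) lc)

/-- Decodes the eight base 64 digits of a certificate and checks it. -/
def okCert (U n c : ℕ) : Bool :=
  okInst U n (c % 64) (c / 64 % 64) (c / 4096 % 64) (c / 262144 % 64) (c / 16777216 % 64)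
    (c / 1073741824 % 64) (c / 68719476736 % 64) (c / 4398046511104 % 64)

/-- The base 4 digit of `U` at position `i`. -/
def dg (U i : ℕ) : ℕ := U / 4 ^ i % 4

def altAtB (U e : ℕ) : Bool :=
  !(Nat.beq (dg U e) (dg U (e + 2))) && Nat.beq (dg U (e + 4)) (dg U e) &&
  Nat.beq (dg U (e + 6)) (dg U (e + 2)) &&
  !(Nat.beq (dg U (1 - e)) (dg U e)) && !(Nat.beq (dg U (1 - e)) (dg U (e + 2))) &&
  !(Nat.beq (dg U (1 - e + 2)) (dg U e)) && !(Nat.beq (dg U (1 - e + 2)) (dg U (e + 2))) &&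
  !(Nat.beq (dg U (1 - e + 4)) (dg U e)) && !(Nat.beq (dg U (1 - e + 4)) (dg U (e + 2))) &&
  !(Nat.beq (dg U (1 - e + 6)) (dg U e)) && !(Nat.beq (dg U (1 - e + 6)) (dg U (e + 2)))

def altB (U : ℕ) : Bool :=
  (altAtB U 0 || altAtB U 1) &&
  !(Nat.beq (dg U 4) (dg U 0) && Nat.beq (dg U 5) (dg U 1) && Nat.beq (dg U 6) (dg U 2) &&
    Nat.beq (dg U 7) (dg U 3))

/-- The checker. `U` codes the known word, which has length `n`, starts at position `lo`, and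
uses only letters below `m`. -/
def chk : Tr → ℕ → ℕ → ℕ → ℕ → Bool
  | .A, U, n, lo, _ => Nat.beq n 8 && Nat.beq lo 23 && altB U
  | .N, _, _, _, _ => false
  | .L c, U, n, _, _ => okCert U n c
  | .R t0 t1 t2 t3, U, n, lo, m =>
      Nat.ble (lo + n + 1) 54 &&
      chk t0 U (n + 1) lo (max m 1) &&
      (Nat.blt m 1 || chk t1 (U + 4 ^ n) (n + 1) lo (max m 2)) &&
      (Nat.blt m 2 || chk t2 (U + 2 * 4 ^ n) (n + 1) lo (max m 3)) &&
      (Nat.blt m 3 || chk t3 (U + 3 * 4 ^ n) (n + 1) lo (max m 4))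
  | .F t0 t1 t2 t3, U, n, lo, m =>
      Nat.ble 1 lo &&
      chk t0 (4 * U) (n + 1) (lo - 1) (max m 1) &&
      (Nat.blt m 1 || chk t1 (4 * U + 1) (n + 1) (lo - 1) (max m 2)) &&
      (Nat.blt m 2 || chk t2 (4 * U + 2) (n + 1) (lo - 1) (max m 3)) &&
      (Nat.blt m 3 || chk t3 (4 * U + 3) (n + 1) (lo - 1) (max m 4))

set_option maxRecDepth 100000 in
theorem chk_tree : chk tree 0 0 23 0 = true := by
  decide +kernel

end Pool.Agent.Lib.MP_3d374d_co
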