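import Pool.Agent.Lib.MP_3d374d_co.Density

set_option autoImplicit false

namespace Pool.Agent.Lib.MP_3d374d_co

/-- `w` contains the words of the list, in this order, separated by nonempty gaps. -/
def HasChain {α : Type*} : List (List α) → List α → Prop
  | [], _ => True
  | [f], w => f <:+: w
  | f :: g :: fs, w => ∃ (u : List α) (x : α) (z : List α), w = u ++ f ++ x :: z ∧ HasChain (g :: fs) z

theorem HasChain.mono {α : Type*} : ∀ (fs : List (List α)) (z y : List α), HasChain fs z →
    HasChain fs (y ++ z)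
  | [], _, _, _ => trivial
  | [f], z, y, h => by
    obtain ⟨s, t, h⟩ := h
    exact ⟨y ++ s, t, by rw [← h]; simp⟩
  | f :: g :: fs, z, y, h => by
    obtain ⟨u, x, z', h, h'⟩ := h
    exact ⟨y ++ u, x, z', by rw [h]; simp, h'⟩

theorem exists_min_prefix {α : Type*} (f w : List α) (h : f <:+: w) :
    ∃ u z : List α, w = u ++ z ∧ f <:+ u ∧ (u = [] ∨ ∃ u' x, u = u' ++ [x] ∧ ¬ f <:+: u') := by
  classical
  have hex : ∃ n, f <:+: w.take n := ⟨w.length, by simpa using h⟩
  have hmin := Nat.find_spec hex
  have hlt := fun m (hm : m < Nat.find hex) => Nat.find_min hex hm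
  set n := Nat.find hex
  rcases n with _ | n
  · refine ⟨[], w, by simp, ?_, Or.inl rfl⟩
    simpa using hmin
  · have h1 := hlt n (Nat.lt_succ_self n)
    by_cases hn : n < w.length
    · have e : w.take (n + 1) = w.take n ++ [w[n]] := by
        rw [List.take_concat_get' w n hn]
      refine ⟨w.take (n + 1), w.drop (n + 1), (List.take_append_drop _ _).symm, ?_,
        Or.inr ⟨_, _, e, h1⟩⟩
      rw [e] at hmin ⊢
      obtain ⟨s, t, hst⟩ := hmin
      rcases List.eq_nil_or_concat t with rfl | ⟨t', y, rfl⟩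
      · exact ⟨s, by simpa using hst⟩
      · exfalso
        apply h1
        refine ⟨s, t', ?_⟩
        have h2 : (s ++ f ++ t') ++ [y] = w.take n ++ [w[n]] := by
          rw [← hst]; simp
        exact (List.append_inj' h2 rfl).1
    · exfalso
      apply h1
      have e1 : w.take n = w := List.take_of_length_le (by omega)
      rw [e1]; exact h

theorem cut {α : Type*} (D : List α → ℝ) (hD : ∀ u v, D (u ++ v) = D u + D v)
    (hD1 : ∀ x, D [x] ≤ 1) (P : List α → Prop) (hP : ∀ u w, u <:+: w → P w → P u) (C : ℝ)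
    (hC : 0 ≤ C) : ∀ fs : List (List α),
    (∀ f ∈ fs, ∀ w, P w → ¬ f <:+: w → D w ≤ C) → ∀ w, P w → ¬ HasChain fs w →
      D w ≤ fs.length * (C + 2) := by
  have hD0 : D [] = 0 := by
    have := hD [] []
    simp only [List.append_nil] at this
    linarith
  intro fs
  induction fs with
  | nil => intro _ w _ h; exact absurd trivial h
  | cons f fs ih =>
    intro hf w hw hch
    rcases fs with _ | ⟨g, fs⟩
    · have := hf f (by simp) w hw hch
      simp only [List.length_cons, List.length_nil, zero_add, Nat.cast_one, one_mul]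
      linarith
    · have ih' := ih (fun f hf' => hf f (List.mem_cons_of_mem _ hf'))
      have hlen : (0 : ℝ) ≤ ((g :: fs).length : ℝ) * (C + 2) := by positivity
      have hgoal : (((f :: g :: fs).length : ℕ) : ℝ) * (C + 2) =
          ((g :: fs).length : ℝ) * (C + 2) + (C + 2) := by
        rw [List.length_cons]; push_cast; ring
      rw [hgoal]
      by_cases h : f <:+: w
      · obtain ⟨u, z, rfl, hu, hu'⟩ := exists_min_prefix f w h
        have hDu : D u ≤ C + 1 := by
          rcases hu' with rfl | ⟨u', x, rfl, hu'⟩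
          · rw [hD0]; linarith
          · rw [hD]
            have h1 := hf f (by simp) u' (hP _ _ ⟨[], [x] ++ z, by simp⟩ hw) hu'
            have h2 := hD1 x
            linarith
        rcases z with _ | ⟨x, z⟩
        · rw [List.append_nil]; linarith
        · have hz : ¬ HasChain (g :: fs) z := by
            intro hz
            apply hch
            obtain ⟨s, rfl⟩ := hu
            exact ⟨s, x, z, rfl, hz⟩
          have h1 := ih' z (hP _ _ ⟨u ++ [x], [], by simp⟩ hw) hz
          have h2 : D (u ++ x :: z) = D u + (D [x] + D z) := by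
            rw [← hD [x] z, hD]; rfl
          have h3 := hD1 x
          rw [h2]; linarith
      · have := hf f (by simp) w hw h
        linarith

/-- The five words of the pattern. -/
def five {α : Type*} (A B C : List α) : List (List α) := [A ++ B, B ++ C, C ++ A, B ++ A, A ++ C]

/-- Words avoiding `abXbcYcaZbaTac`, in terms of chains. -/
def Av {α : Type*} (w : List α) : Prop :=
  ∀ A B C : List α, A ≠ [] → B ≠ [] → C ≠ [] → ¬ HasChain (five A B C) w

theorem HasChain.of_inf {α : Type*} : ∀ (fs : List (List α)) (z w : List α), HasChain fs z →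
    z <:+: w → HasChain fs w
  | [], _, _, _, _ => trivial
  | [f], z, w, h, hz => List.IsInfix.trans h hz
  | f :: g :: fs, z, w, h, hz => by
    obtain ⟨u, x, z', h, h'⟩ := h
    obtain ⟨s, t, hst⟩ := hz
    refine ⟨s ++ u, x, z' ++ t, by rw [← hst, h]; simp, ?_⟩
    exact HasChain.of_inf (g :: fs) z' (z' ++ t) h' ⟨[], t, by simp⟩

theorem Av.of_inf {α : Type*} {u w : List α} (h : u <:+: w) (hw : Av w) : Av u :=
  fun A B C hA hB hC hc => hw A B C hA hB hC (hc.of_inf _ _ _ h)

/-- From classes missing a factor to the class avoiding the pattern. -/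
theorem induct {α : Type*} (D : List α → ℝ) (hD : ∀ u v, D (u ++ v) = D u + D v)
    (hD1 : ∀ x, D [x] ≤ 1) (T : Finset (List α × List α × List α))
    (hT : ∀ t ∈ T, t.1 ≠ [] ∧ t.2.1 ≠ [] ∧ t.2.2 ≠ []) (C₀ : ℝ)
    (h0 : ∀ w, Av w → (∀ t ∈ T, ∃ f ∈ five t.1 t.2.1 t.2.2, ¬ f <:+: w) → D w ≤ C₀) :
    ∃ C : ℝ, ∀ w, Av w → D w ≤ C := by
  classical
  have key : ∀ S : Finset (List α × List α × List α), S ⊆ T → ∃ C : ℝ, 0 ≤ C ∧ ∀ w, Av w →
      (∀ t ∈ T \ S, ∃ f ∈ five t.1 t.2.1 t.2.2, ¬ f <:+: w) → D w ≤ C := by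
    intro S
    induction S using Finset.induction_on with
    | empty =>
      intro _
      refine ⟨max C₀ 0, le_max_right _ _, ?_⟩
      intro w hw h
      rw [Finset.sdiff_empty] at h
      exact (h0 w hw h).trans (le_max_left _ _)
    | insert t S ht ih =>
      intro hS
      obtain ⟨C, hC, ih⟩ := ih (fun x hx => hS (Finset.mem_insert_of_mem hx))
      refine ⟨5 * (C + 2), by linarith, ?_⟩
      intro w hw h
      have htT := hT t (hS (Finset.mem_insert_self _ _))
      have := cut D hD hD1 (fun w => Av w ∧ ∀ t' ∈ T \ insert t S,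
        ∃ f ∈ five t'.1 t'.2.1 t'.2.2, ¬ f <:+: w) ?_ C hC (five t.1 t.2.1 t.2.2) ?_ w ⟨hw, h⟩
        (hw _ _ _ htT.1 htT.2.1 htT.2.2)
      · simpa [five] using this
      · rintro u w huw ⟨h1, h2⟩
        refine ⟨h1.of_inf huw, ?_⟩
        intro t' ht'
        obtain ⟨f, hf, hf'⟩ := h2 t' ht'
        exact ⟨f, hf, fun h => hf' (h.trans huw)⟩
      · rintro f hf w ⟨h1, h2⟩ h3
        apply ih w h1
        intro t' ht'
        by_cases htt : t' = t
        · subst htt
          exact ⟨f, hf, h3⟩
        · apply h2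
          rw [Finset.mem_sdiff] at ht' ⊢
          refine ⟨ht'.1, ?_⟩
          rw [Finset.mem_insert]
          rintro (h | h)
          · exact htt h
          · exact ht'.2 h
  obtain ⟨C, -, hC⟩ := key T (Finset.Subset.refl _)
  refine ⟨C, ?_⟩
  intro w hw
  apply hC w hw
  intro t ht
  simp at ht

end Pool.Agent.Lib.MP_3d374d_co
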