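import Pool.Agent.Lib.MP_3d374d_co.Struct

set_option autoImplicit false

namespace Pool.Agent.Lib.MP_3d374d_co

theorem trivial_bound (w : ℕ → Fin 4) (x : Fin 4) (a L : ℕ) :
    |(cnt w x a L : ℝ) - L / 4| ≤ L := by
  have h1 : (cnt w x a L : ℝ) ≤ L := by exact_mod_cast cnt_le w x a L
  have h2 : (0 : ℝ) ≤ cnt w x a L := by positivity
  have h3 : (0 : ℝ) ≤ L := by positivity
  rw [abs_le]
  constructor <;> linarith

theorem exact_bound {w : ℕ → Fin 4} {x : Fin 4} {a c M L : ℕ} (h1 : a ≤ c)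
    (h2 : c + 4 * M ≤ a + L) (h3 : a + L ≤ a + 4 * M + 60) (h : cnt w x c (4 * M) = M) :
    |(cnt w x a L : ℝ) - L / 4| ≤ 60 := by
  obtain ⟨h4, h5⟩ := cnt_sub (w := w) (x := x) h1 h2 h3
  have e : a + L - a = L := by omega
  rw [e, h] at h4 h5
  have h4' : (M : ℝ) ≤ cnt w x a L := by exact_mod_cast h4
  have h5' : (cnt w x a L : ℝ) ≤ M + 60 := by exact_mod_cast h5
  have h6 : (L : ℝ) ≤ 4 * M + 60 := by
    have : L ≤ 4 * M + 60 := by omega
    exact_mod_cast this
  have h7 : (4 * M : ℝ) ≤ L := by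
    have : 4 * M ≤ L := by omega
    exact_mod_cast this
  rw [abs_le]
  constructor <;> linarith

theorem ren_parity (w : ℕ → Fin 4) (c : ℕ) (r : Fin 4) (i : ℕ) :
    (ren w c r i).val % 2 = i % 2 := by
  unfold ren
  rcases Nat.mod_two_eq_zero_or_one i with h | h <;>
    by_cases h1 : w (c + 2 * i + 1) = r <;> simp [h, h1]

/-- In a renormalized word, one of the letters `0`, `1` has an exactly known frequency. -/
theorem ren_exact {w : ℕ → Fin 4} {c : ℕ} {r : Fin 4} {L : ℕ}
    (hI : ¬ Inst (ren w c r) 0 (0 + L) 30) :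
    |(cnt (ren w c r) 0 0 L : ℝ) - L / 4| ≤ 100 ∨ |(cnt (ren w c r) 1 0 L : ℝ) - L / 4| ≤ 100 := by
  by_cases hL : L ≤ 64
  · left
    have := trivial_bound (ren w c r) 0 0 L
    have h2 : (L : ℝ) ≤ 64 := by exact_mod_cast hL
    linarith
  · obtain ⟨c', M', p', q', h1, h2, h3, hB⟩ := exists_blocks hI (by omega)
    have hM : 0 < M' := by omega
    have hp := ren_parity w c r (c' + 4 * 0)
    have hq := ren_parity w c r (c' + 4 * 0 + 2)
    rw [hB.h0 0 hM] at hp
    rw [hB.h2 0 hM] at hq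
    have hpq : p'.val % 2 = q'.val % 2 := by omega
    have hcase : ∀ p q : Fin 4, p ≠ q → p.val % 2 = q.val % 2 → p = 0 ∨ p = 1 ∨ q = 0 ∨ q = 1 := by
      decide
    have b1 := exact_bound h1 h2 h3 hB.cnt_p
    have b2 := exact_bound h1 h2 h3 hB.cnt_q
    rcases hcase p' q' hB.ne hpq with h | h | h | h
    · rw [h] at b1; left; linarith
    · rw [h] at b1; right; linarith
    · rw [h] at b2; left; linarith
    · rw [h] at b2; right; linarith

theorem density (t : ℕ) : ∃ C : ℝ, 0 ≤ C ∧ ∀ (w : ℕ → Fin 4) (a L : ℕ),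
    ¬ Inst w a (a + L) (30 * 2 ^ t) → ∀ x : Fin 4,
      |(cnt w x a L : ℝ) - L / 4| ≤ L / 2 ^ t + C := by
  induction t with
  | zero =>
    refine ⟨0, le_rfl, ?_⟩
    intro w a L _ x
    have := trivial_bound w x a L
    simpa using this
  | succ t ih =>
    obtain ⟨C, hC, ih⟩ := ih
    refine ⟨C + 300, by linarith, ?_⟩
    intro w a L hI x
    have hLnn : (0 : ℝ) ≤ (L : ℝ) / 2 ^ (t + 1) := by positivity
    have hpow : 1 ≤ 2 ^ t := Nat.one_le_two_pow
    by_cases hL : L < 55
    · have := trivial_bound w x a L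
      have h2 : (L : ℝ) ≤ 55 := by exact_mod_cast hL.le
      linarith
    have hI30 : ¬ Inst w a (a + L) 30 := by
      intro h
      apply hI
      apply inst_mono le_rfl le_rfl _ h
      rw [pow_succ]; omega
    obtain ⟨c, M, p, q, h1, h2, h3, hB⟩ := exists_blocks hI30 (by omega)
    have main : ∀ r s : Fin 4, r ≠ p → r ≠ q → (∀ x : Fin 4, x = p ∨ x = q ∨ x = r ∨ x = s) →
        |(cnt w r a L : ℝ) - L / 4| ≤ L / 2 ^ (t + 1) + (C + 300) := by
      intro r s hrp hrq hrs
      have hIv : ¬ Inst (ren w c r) 0 (0 + 2 * M) (30 * 2 ^ t) := by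
        intro h
        rw [zero_add] at h
        have := hB.inst hrs h
        apply hI
        refine inst_mono h1 h2 ?_ this
        rw [pow_succ]; omega
      have hIv30 : ¬ Inst (ren w c r) 0 (0 + 2 * M) 30 := by
        intro h
        apply hIv
        apply inst_mono le_rfl le_rfl _ h
        omega
      have hcr := hB.cnt_r hrp hrq
      have k0 := ih (ren w c r) 0 (2 * M) hIv 0
      have k1 := ih (ren w c r) 0 (2 * M) hIv 1
      have k2 := ren_exact hIv30
      obtain ⟨h4, h5⟩ := cnt_sub (w := w) (x := r) h1 h2 h3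
      have e : a + L - a = L := by omega
      rw [e, hcr] at h4 h5
      have h4' : (cnt (ren w c r) 0 0 (2 * M) : ℝ) + cnt (ren w c r) 1 0 (2 * M) ≤ cnt w r a L := by
        exact_mod_cast h4
      have h5' : (cnt w r a L : ℝ) ≤
          cnt (ren w c r) 0 0 (2 * M) + cnt (ren w c r) 1 0 (2 * M) + 60 := by
        exact_mod_cast h5
      have h6 : (L : ℝ) ≤ 4 * M + 60 := by
        have : L ≤ 4 * M + 60 := by omega
        exact_mod_cast this
      have h7 : (4 * M : ℝ) ≤ L := by
        have : 4 * M ≤ L := by omega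
        exact_mod_cast this
      have h8 : ((2 * M : ℕ) : ℝ) / 2 ^ t ≤ L / 2 ^ (t + 1) := by
        rw [pow_succ, div_le_div_iff₀ (by positivity) (by positivity)]
        push_cast
        have : (0 : ℝ) < 2 ^ t := by positivity
        nlinarith
      push_cast at k0 k1 k2 h8
      rw [abs_le] at k0 k1
      rw [abs_le]
      rcases k2 with k2 | k2 <;> rw [abs_le] at k2 <;> constructor <;> linarith [k0.1, k0.2, k1.1, k1.2, k2.1, k2.2]
    obtain ⟨r, s, hrs, hrp, hrq, hsp, hsq, hall⟩ := exists_compl p q hB.ne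
    rcases hall x with rfl | rfl | rfl | rfl
    · have := exact_bound h1 h2 h3 hB.cnt_p
      linarith
    · have := exact_bound h1 h2 h3 hB.cnt_q
      linarith
    · exact main _ s hrp hrq hall
    · refine main _ r hsp hsq ?_
      intro y
      rcases hall y with h | h | h | h
      · exact Or.inl h
      · exact Or.inr (Or.inl h)
      · exact Or.inr (Or.inr (Or.inr h))
      · exact Or.inr (Or.inr (Or.inl h))

end Pool.Agent.Lib.MP_3d374d_co
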