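import Pool.Agent.Lib.MP_3d374d_co.Check

set_option autoImplicit false

namespace Pool.Agent.Lib.MP_3d374d_co

theorem sl_eq {U p q l : ℕ} (h : sl U p l = sl U q l) {k : ℕ} (hk : k < l) :
    dg U (p + k) = dg U (q + k) := by
  obtain ⟨r, rfl⟩ : ∃ r, l = k + (1 + r) := ⟨l - k - 1, by omega⟩
  have key : ∀ s : ℕ, dg U (s + k) = sl U s (k + (1 + r)) / 4 ^ k % 4 := by
    intro s
    unfold dg sl
    rw [pow_add 4 k (1 + r), Nat.mod_mul_right_div_self, Nat.mod_mod_of_dvd, Nat.div_div_eq_div_mul,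
      ← pow_add]
    rw [pow_add, pow_one]
    exact Dvd.intro _ rfl
  rw [key, key, h]

theorem dg_add_lt {U n i : ℕ} (d : ℕ) (hi : i < n) : dg (U + d * 4 ^ n) i = dg U i := by
  obtain ⟨r, rfl⟩ : ∃ r, n = i + (1 + r) := ⟨n - i - 1, by omega⟩
  unfold dg
  have : U + d * 4 ^ (i + (1 + r)) = U + 4 ^ i * (4 * (d * 4 ^ r)) := by
    rw [pow_add, pow_add]; ring
  rw [this, Nat.add_mul_div_left _ _ (by positivity)]
  omega

theorem dg_add_self {U n d : ℕ} (hU : U < 4 ^ n) (hd : d < 4) : dg (U + d * 4 ^ n) n = d := by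
  unfold dg
  rw [mul_comm d, Nat.add_mul_div_left _ _ (by positivity), Nat.div_eq_of_lt hU]
  omega

theorem dg_succ {U d i : ℕ} (hd : d < 4) : dg (4 * U + d) (i + 1) = dg U i := by
  unfold dg
  rw [pow_succ', ← Nat.div_div_eq_div_mul]
  congr 2
  omega

theorem dg_zero {U d : ℕ} (hd : d < 4) : dg (4 * U + d) 0 = d := by
  unfold dg
  simp
  omega

structure St (w : ℕ → Fin 4) (U n lo m : ℕ) : Prop where
  hU : U < 4 ^ n
  hd : ∀ i < n, (w (lo + i)).val = dg U i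
  hm : ∀ i < n, (w (lo + i)).val < m
  hle : lo + n ≤ 54

theorem St.comp {w : ℕ → Fin 4} {U n lo m : ℕ} (h : St w U n lo m) (σ : Fin 4 → Fin 4)
    (hσ : ∀ x : Fin 4, x.val < m → σ x = x) : St (σ ∘ w) U n lo m := by
  refine ⟨h.hU, ?_, ?_, h.hle⟩
  · intro i hi
    simp only [Function.comp]
    rw [hσ _ (h.hm i hi)]
    exact h.hd i hi
  · intro i hi
    simp only [Function.comp]
    rw [hσ _ (h.hm i hi)]
    exact h.hm i hi

theorem exists_perm (y : Fin 4) (m : ℕ) :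
    ∃ σ : Fin 4 → Fin 4, Function.Injective σ ∧ (∀ x : Fin 4, x.val < m → σ x = x) ∧
      (σ y).val ≤ m := by
  by_cases h : y.val ≤ m
  · exact ⟨id, Function.injective_id, fun _ _ => rfl, h⟩
  · have hm4 : m < 4 := by have := y.isLt; omega
    refine ⟨Equiv.swap y ⟨m, hm4⟩, (Equiv.swap _ _).injective, ?_, ?_⟩
    · intro x hx
      apply Equiv.swap_apply_of_ne_of_ne
      · intro hxy; rw [hxy] at hx; omega
      · intro hxy; rw [hxy] at hx; simp at hx
    · rw [Equiv.swap_apply_left]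

theorem St.right {w : ℕ → Fin 4} {U n lo m : ℕ} (h : St w U n lo m) {d : ℕ}
    (hd : (w (lo + n)).val = d) (hle : lo + n + 1 ≤ 54) :
    St w (U + d * 4 ^ n) (n + 1) lo (max m (d + 1)) := by
  have hd4 : d < 4 := hd ▸ (w (lo + n)).isLt
  refine ⟨?_, ?_, ?_, by omega⟩
  · have := h.hU
    rw [pow_succ]
    nlinarith
  · intro i hi
    rcases Nat.lt_succ_iff_lt_or_eq.1 hi with hi | rfl
    · rw [dg_add_lt _ hi]; exact h.hd i hi
    · rw [dg_add_self h.hU hd4]; exact hd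
  · intro i hi
    rcases Nat.lt_succ_iff_lt_or_eq.1 hi with hi | rfl
    · exact lt_of_lt_of_le (h.hm i hi) (le_max_left _ _)
    · rw [hd]; exact lt_of_lt_of_le (Nat.lt_succ_self d) (le_max_right _ _)

theorem St.left {w : ℕ → Fin 4} {U n lo m : ℕ} (h : St w U n lo m) {d : ℕ} (hlo : 1 ≤ lo)
    (hd : (w (lo - 1)).val = d) :
    St w (4 * U + d) (n + 1) (lo - 1) (max m (d + 1)) := by
  have hd4 : d < 4 := hd ▸ (w (lo - 1)).isLt
  have hle := h.hle
  refine ⟨?_, ?_, ?_, by omega⟩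
  · have := h.hU
    rw [pow_succ]
    omega
  · intro i hi
    rcases i with _ | i
    · rw [dg_zero hd4]; exact hd
    · rw [dg_succ hd4]
      have : lo - 1 + (i + 1) = lo + i := by omega
      rw [this]; exact h.hd i (by omega)
  · intro i hi
    rcases i with _ | i
    · have : lo - 1 + 0 = lo - 1 := rfl
      rw [this, hd]; exact lt_of_lt_of_le (Nat.lt_succ_self d) (le_max_right _ _)
    · have : lo - 1 + (i + 1) = lo + i := by omega
      rw [this]
      exact lt_of_lt_of_le (h.hm i (by omega)) (le_max_left _ _)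

theorem okInst_sound {w : ℕ → Fin 4} {U n lo m : ℕ} (h : St w U n lo m)
    {la lb lc p1 p2 p3 p4 p5 : ℕ} (hc : okInst U n la lb lc p1 p2 p3 p4 p5 = true) :
    Inst w 0 54 30 := by
  simp only [okInst, Bool.and_eq_true, Nat.ble_eq, Nat.beq_eq] at hc
  obtain ⟨⟨⟨⟨⟨⟨⟨⟨⟨⟨⟨⟨⟨⟨⟨⟨⟨h1, h2⟩, h3⟩, h4⟩, h5⟩, h6⟩, q1⟩, q2⟩, q3⟩, q4⟩, q5⟩, e1⟩, e2⟩, e3⟩,
    e4⟩, e5⟩, e6⟩, e7⟩ := hc
  have hle := h.hle
  have key : ∀ p q k : ℕ, p + k < n → q + k < n → dg U (p + k) = dg U (q + k) →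
      w (lo + p + k) = w (lo + q + k) := by
    intro p q k hp hq he
    apply Fin.ext
    rw [add_assoc, add_assoc, h.hd _ hp, h.hd _ hq, he]
  refine ⟨la, lb, lc, lo + p1, lo + p2, lo + p3, lo + p4, lo + p5, by omega, by omega,
    ?_, ?_, ?_⟩
  · intro k hk
    have k1 := key p1 (p3 + lc) k (by omega) (by omega) (sl_eq e1 hk)
    have k2 := key p1 (p4 + lb) k (by omega) (by omega) (sl_eq e2 hk)
    have k3 := key p1 p5 k (by omega) (by omega) (sl_eq e3 hk)
    simp only [← add_assoc] at k1 k2 k3 ⊢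
    exact ⟨k1, k2, k3⟩
  · intro k hk
    have k1 := key (p1 + la) p2 k (by omega) (by omega) (sl_eq e4 hk)
    have k2 := key (p1 + la) p4 k (by omega) (by omega) (sl_eq e5 hk)
    simp only [← add_assoc] at k1 k2 ⊢
    exact ⟨k1, k2⟩
  · intro k hk
    have k1 := key (p2 + lb) p3 k (by omega) (by omega) (sl_eq e6 hk)
    have k2 := key (p2 + lb) (p5 + la) k (by omega) (by omega) (sl_eq e7 hk)
    simp only [← add_assoc] at k1 k2 ⊢
    exact ⟨k1, k2⟩

theorem altAtB_sound {w : ℕ → Fin 4} {U m : ℕ} (h : St w U 8 23 m) {e : ℕ}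
    (he : e = 0 ∨ e = 1) (hb : altAtB U e = true) : AltAt w 23 e := by
  have hw : ∀ i j : ℕ, i < 8 → j < 8 → (w (23 + i) = w (23 + j) ↔ dg U i = dg U j) := by
    intro i j hi hj
    rw [← h.hd i hi, ← h.hd j hj, Fin.ext_iff]
  simp only [altAtB, Bool.and_eq_true, Bool.not_eq_true', Nat.beq_eq] at hb
  have hbf : ∀ a b : ℕ, (Nat.beq a b = false ↔ a ≠ b) := by
    intro a b
    constructor
    · intro h1 h2
      rw [← Nat.beq_eq] at h2
      rw [h1] at h2
      exact absurd h2 (by simp)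
    · intro h1
      cases h3 : Nat.beq a b
      · rfl
      · exact absurd (Nat.eq_of_beq_eq_true h3) h1
  simp only [hbf] at hb
  obtain ⟨⟨⟨⟨⟨⟨⟨⟨⟨⟨h1, h2⟩, h3⟩, h4⟩, h5⟩, h6⟩, h7⟩, h8⟩, h9⟩, h10⟩, h11⟩ := hb
  have e8 : e ≤ 1 := by omega
  unfold AltAt
  refine ⟨?_, ?_, ?_, ?_⟩
  · intro hh
    exact h1 ((hw e (e + 2) (by omega) (by omega)).1 (by rw [hh]; congr 1))
  · exact (hw (e + 4) e (by omega) (by omega)).2 h2
  · exact (hw (e + 6) (e + 2) (by omega) (by omega)).2 h3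
  · intro i hi
    have : i = 0 ∨ i = 1 ∨ i = 2 ∨ i = 3 := by omega
    rcases this with rfl | rfl | rfl | rfl
    · exact ⟨fun hh => h4 ((hw (1 - e) e (by omega) (by omega)).1 hh),
        fun hh => h5 ((hw (1 - e) (e + 2) (by omega) (by omega)).1 hh)⟩
    · exact ⟨fun hh => h6 ((hw (1 - e + 2) e (by omega) (by omega)).1 hh),
        fun hh => h7 ((hw (1 - e + 2) (e + 2) (by omega) (by omega)).1 hh)⟩
    · exact ⟨fun hh => h8 ((hw (1 - e + 4) e (by omega) (by omega)).1 hh),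
        fun hh => h9 ((hw (1 - e + 4) (e + 2) (by omega) (by omega)).1 hh)⟩
    · exact ⟨fun hh => h10 ((hw (1 - e + 6) e (by omega) (by omega)).1 hh),
        fun hh => h11 ((hw (1 - e + 6) (e + 2) (by omega) (by omega)).1 hh)⟩

theorem altB_sound {w : ℕ → Fin 4} {U m : ℕ} (h : St w U 8 23 m) (hb : altB U = true) :
    Alt w 23 := by
  unfold altB at hb
  rw [Bool.and_eq_true, Bool.or_eq_true, Bool.not_eq_true'] at hb
  refine ⟨?_, ?_⟩
  · rcases hb.1 with h1 | h1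
    · exact Or.inl (altAtB_sound h (Or.inl rfl) h1)
    · exact Or.inr (altAtB_sound h (Or.inr rfl) h1)
  · intro hp
    have hw : ∀ i j : ℕ, i < 8 → j < 8 → w (23 + i) = w (23 + j) → dg U i = dg U j := by
      intro i j hi hj hh
      rw [← h.hd i hi, ← h.hd j hj, hh]
    obtain ⟨q1, q2, q3, q4⟩ := hp
    have := hb.2
    have c : (Nat.beq (dg U 4) (dg U 0) && Nat.beq (dg U 5) (dg U 1) &&
      Nat.beq (dg U 6) (dg U 2) && Nat.beq (dg U 7) (dg U 3)) = true := by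
      simp only [Bool.and_eq_true, Nat.beq_eq]
      exact ⟨⟨⟨hw 4 0 (by omega) (by omega) q1, hw 5 1 (by omega) (by omega) q2⟩,
        hw 6 2 (by omega) (by omega) q3⟩, hw 7 3 (by omega) (by omega) q4⟩
    rw [c] at this
    exact absurd this (by simp)

theorem chk_sound : ∀ (t : Tr) (w : ℕ → Fin 4) (U n lo m : ℕ), chk t U n lo m = true →
    St w U n lo m → ¬ Inst w 0 54 30 → Alt w 23 := by
  intro t
  induction t with
  | A =>
    intro w U n lo m hc hs _
    simp only [chk, Bool.and_eq_true, Nat.beq_eq] at hc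
    obtain ⟨⟨rfl, rfl⟩, h⟩ := hc
    exact altB_sound hs h
  | N => intro w U n lo m hc; simp [chk] at hc
  | L c =>
    intro w U n lo m hc hs hI
    exact absurd (okInst_sound hs hc) hI
  | R t0 t1 t2 t3 i0 i1 i2 i3 =>
    intro w U n lo m hc hs hI
    simp only [chk, Bool.and_eq_true, Bool.or_eq_true, Nat.ble_eq, Nat.blt_eq] at hc
    obtain ⟨⟨⟨⟨hle, c0⟩, c1⟩, c2⟩, c3⟩ := hc
    obtain ⟨σ, hσi, hσ1, hσ2⟩ := exists_perm (w (lo + n)) m
    have hs' := hs.comp σ hσ1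
    rw [← inst_comp σ hσi] at hI
    rw [← alt_comp σ hσi]
    have hd : ((σ ∘ w) (lo + n)).val ≤ m := hσ2
    obtain ⟨d, hdd⟩ : ∃ d, d = ((σ ∘ w) (lo + n)).val := ⟨_, rfl⟩
    have hr := hs'.right hdd.symm hle
    have hd4 : d < 4 := hdd ▸ ((σ ∘ w) (lo + n)).isLt
    rw [← hdd] at hd
    have : d = 0 ∨ d = 1 ∨ d = 2 ∨ d = 3 := by omega
    rcases this with rfl | rfl | rfl | rfl
    · simp only [zero_mul, add_zero, zero_add] at hr
      exact i0 _ _ _ _ _ c0 hr hI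
    · rcases c1 with c1 | c1
      · omega
      · simp only [one_mul] at hr
        exact i1 _ _ _ _ _ c1 hr hI
    · rcases c2 with c2 | c2
      · omega
      · exact i2 _ _ _ _ _ c2 hr hI
    · rcases c3 with c3 | c3
      · omega
      · exact i3 _ _ _ _ _ c3 hr hI
  | F t0 t1 t2 t3 i0 i1 i2 i3 =>
    intro w U n lo m hc hs hI
    simp only [chk, Bool.and_eq_true, Bool.or_eq_true, Nat.ble_eq, Nat.blt_eq] at hc
    obtain ⟨⟨⟨⟨hle, c0⟩, c1⟩, c2⟩, c3⟩ := hc
    obtain ⟨σ, hσi, hσ1, hσ2⟩ := exists_perm (w (lo - 1)) m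
    have hs' := hs.comp σ hσ1
    rw [← inst_comp σ hσi] at hI
    rw [← alt_comp σ hσi]
    have hd : ((σ ∘ w) (lo - 1)).val ≤ m := hσ2
    obtain ⟨d, hdd⟩ : ∃ d, d = ((σ ∘ w) (lo - 1)).val := ⟨_, rfl⟩
    have hr := hs'.left hle hdd.symm
    have hd4 : d < 4 := hdd ▸ ((σ ∘ w) (lo - 1)).isLt
    rw [← hdd] at hd
    have : d = 0 ∨ d = 1 ∨ d = 2 ∨ d = 3 := by omega
    rcases this with rfl | rfl | rfl | rfl
    · simp only [add_zero, zero_add] at hr
      exact i0 _ _ _ _ _ c0 hr hI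
    · rcases c1 with c1 | c1
      · omega
      · exact i1 _ _ _ _ _ c1 hr hI
    · rcases c2 with c2 | c2
      · omega
      · exact i2 _ _ _ _ _ c2 hr hI
    · rcases c3 with c3 | c3
      · omega
      · exact i3 _ _ _ _ _ c3 hr hI

theorem lemmaA (w : ℕ → Fin 4) (h : ¬ Inst w 0 54 30) : Alt w 23 :=
  chk_sound tree w 0 0 23 0 chk_tree
    ⟨by simp, fun i hi => absurd hi (Nat.not_lt_zero i), fun i hi => absurd hi (Nat.not_lt_zero i),
      by omega⟩ h

theorem inst_shift {α : Type*} (w : ℕ → α) (t s e n : ℕ) :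
    Inst (fun i => w (t + i)) s e n → Inst w (t + s) (t + e) n := by
  rintro ⟨la, lb, lc, p1, p2, p3, p4, p5, h1, h2, h3, h4, h5⟩
  refine ⟨la, lb, lc, t + p1, t + p2, t + p3, t + p4, t + p5, h1, by omega, ?_, ?_, ?_⟩
  · intro k hk
    have := h3 k hk
    simpa only [add_assoc] using this
  · intro k hk
    have := h4 k hk
    simpa only [add_assoc] using this
  · intro k hk
    have := h5 k hk
    simpa only [add_assoc] using this

theorem inst_mono {α : Type*} {w : ℕ → α} {s e n s' e' n' : ℕ} (hs : s' ≤ s) (he : e ≤ e')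
    (hn : n ≤ n') : Inst w s e n → Inst w s' e' n' := by
  rintro ⟨la, lb, lc, p1, p2, p3, p4, p5, h1, h2, h3, h4, h5⟩
  exact ⟨la, lb, lc, p1, p2, p3, p4, p5, by omega, by omega, h3, h4, h5⟩

theorem lemmaA_shift (w : ℕ → Fin 4) (s : ℕ) (h : ¬ Inst w s (s + 54) 30) : Alt w (s + 23) := by
  have h1 := lemmaA (fun i => w (s + i)) (fun hI => h (by simpa using inst_shift w s 0 54 30 hI))
  simpa only [Alt, AltAt, Per, ← add_assoc] using h1

end Pool.Agent.Lib.MP_3d374d_co
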