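import Pool.Agent.Lib.MP_3d374d_co.Sound

set_option autoImplicit false

namespace Pool.Agent.Lib.MP_3d374d_co

theorem step0 {w : ℕ → Fin 4} {j : ℕ} (h0 : Alt w j) (h1 : Alt w (j + 1)) (h : AltAt w j 0) :
    AltAt w (j + 1) 1 := by
  rcases h1.1 with h2 | h2
  · exfalso
    apply h0.2
    obtain ⟨-, a1, a2, -⟩ := h
    obtain ⟨-, b1, b2, -⟩ := h2
    simp only [add_assoc] at a1 a2 b1 b2
    refine ⟨?_, ?_, ?_, ?_⟩
    · exact a1
    · exact b1
    · exact a2
    · exact b2
  · exact h2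

theorem step1 {w : ℕ → Fin 4} {j : ℕ} (h1 : Alt w (j + 1)) (h : AltAt w j 1) :
    AltAt w (j + 1) 0 := by
  rcases h1.1 with h2 | h2
  · exact h2
  · exfalso
    apply h1.2
    obtain ⟨-, a1, a2, -⟩ := h
    obtain ⟨-, b1, b2, -⟩ := h2
    simp only [add_assoc] at a1 a2 b1 b2
    refine ⟨?_, ?_, ?_, ?_⟩
    · simp only [add_assoc]; exact a1
    · simp only [add_assoc]; exact b1
    · simp only [add_assoc]; exact a2
    · simp only [add_assoc]; exact b2

/-- The alternating structure of an interval: `M` blocks of length `4` starting at `c`. -/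
structure Blocks (w : ℕ → Fin 4) (c M : ℕ) (p q : Fin 4) : Prop where
  ne : p ≠ q
  h0 : ∀ i < M, w (c + 4 * i) = p
  h2 : ∀ i < M, w (c + 4 * i + 2) = q
  h1 : ∀ i < M, w (c + 4 * i + 1) ≠ p ∧ w (c + 4 * i + 1) ≠ q
  h3 : ∀ i < M, w (c + 4 * i + 3) ≠ p ∧ w (c + 4 * i + 3) ≠ q

theorem alt_chain {w : ℕ → Fin 4} {a b : ℕ} (hI : ¬ Inst w a b 30) (hab : a + 54 ≤ b) :
    ∃ c, (c = a + 23 ∨ c = a + 24) ∧ ∀ i, c + 2 * i + 31 ≤ b → AltAt w (c + 2 * i) 0 := by
  have hA : ∀ j, a + 23 ≤ j → j + 31 ≤ b → Alt w j := by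
    intro j h1 h2
    obtain ⟨s, rfl⟩ : ∃ s, j = s + 23 := ⟨j - 23, by omega⟩
    apply lemmaA_shift
    intro h3
    exact hI (inst_mono (by omega) (by omega) (le_refl _) h3)
  have hstep : ∀ j, a + 23 ≤ j → j + 2 + 31 ≤ b → AltAt w j 0 → AltAt w (j + 2) 0 := by
    intro j h1 h2 h3
    exact step1 (hA (j + 2) (by omega) (by omega))
      (step0 (hA j h1 (by omega)) (hA (j + 1) (by omega) (by omega)) h3)
  rcases (hA (a + 23) le_rfl (by omega)).1 with h | h
  · refine ⟨a + 23, Or.inl rfl, ?_⟩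
    intro i
    induction i with
    | zero => intro _; exact h
    | succ i ih =>
      intro hi
      have := hstep (a + 23 + 2 * i) (by omega) (by omega) (ih (by omega))
      exact this
  · refine ⟨a + 24, Or.inr rfl, ?_⟩
    intro i
    induction i with
    | zero =>
      intro hi
      exact step1 (hA (a + 24) (by omega) (by omega)) h
    | succ i ih =>
      intro hi
      have := hstep (a + 24 + 2 * i) (by omega) (by omega) (ih (by omega))
      exact this

theorem exists_blocks {w : ℕ → Fin 4} {a b : ℕ} (hI : ¬ Inst w a b 30) (hab : a + 55 ≤ b) :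
    ∃ c M p q, a ≤ c ∧ c + 4 * M ≤ b ∧ b ≤ a + 4 * M + 60 ∧ Blocks w c M p q := by
  obtain ⟨c, hc, hch⟩ := alt_chain hI (by omega)
  refine ⟨c, (b - 31 - c) / 4, w c, w (c + 2), by omega, by omega, by omega, ?_⟩
  have hz := hch 0 (by omega)
  have hind : ∀ i, i < (b - 31 - c) / 4 + 1 → c + 4 * i + 31 ≤ b →
      w (c + 4 * i) = w c ∧ w (c + 4 * i + 2) = w (c + 2) := by
    intro i
    induction i with
    | zero => intro _ _; exact ⟨rfl, rfl⟩
    | succ i ih =>
      intro h1 h2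
      obtain ⟨e1, e2⟩ := ih (by omega) (by omega)
      have h3 := hch (2 * i) (by omega)
      obtain ⟨-, a1, a2, -⟩ := h3
      simp only [add_zero] at a1 a2
      have e3 : c + 4 * (i + 1) = c + 2 * (2 * i) + 4 := by ring
      have e4 : c + 4 * (i + 1) + 2 = c + 2 * (2 * i) + 6 := by ring
      have e5 : c + 2 * (2 * i) = c + 4 * i := by ring
      rw [e4, e3, a1, a2, e5]
      exact ⟨e1, e2⟩
  constructor
  · have := hz.1
    simpa using this
  · intro i hi; exact (hind i (by omega) (by omega)).1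
  · intro i hi; exact (hind i (by omega) (by omega)).2
  · intro i hi
    obtain ⟨e1, e2⟩ := hind i (by omega) (by omega)
    obtain ⟨-, -, -, a3⟩ := hch (2 * i) (by omega)
    have := a3 0 (by omega)
    simp only [add_zero, mul_zero, tsub_zero] at this
    have e5 : c + 2 * (2 * i) = c + 4 * i := by ring
    rw [e5, e1, e2] at this
    exact this
  · intro i hi
    obtain ⟨e1, e2⟩ := hind i (by omega) (by omega)
    obtain ⟨-, -, -, a3⟩ := hch (2 * i) (by omega)
    have := a3 1 (by omega)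
    simp only [add_zero, mul_one, tsub_zero] at this
    have e5 : c + 2 * (2 * i) = c + 4 * i := by ring
    rw [e5, e1, e2] at this
    exact this

/-- Number of occurrences of `x` in `[a, a + L)`. -/
def cnt (w : ℕ → Fin 4) (x : Fin 4) (a L : ℕ) : ℕ := ∑ i ∈ Finset.range L, if w (a + i) = x then 1 else 0

theorem cnt_add (w : ℕ → Fin 4) (x : Fin 4) (a L L' : ℕ) :
    cnt w x a (L + L') = cnt w x a L + cnt w x (a + L) L' := by
  unfold cnt
  rw [Finset.sum_range_add]
  simp only [add_assoc]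

theorem cnt_le (w : ℕ → Fin 4) (x : Fin 4) (a L : ℕ) : cnt w x a L ≤ L := by
  unfold cnt
  calc _ ≤ ∑ i ∈ Finset.range L, 1 := Finset.sum_le_sum (fun i _ => by split_ifs <;> omega)
    _ = L := by simp

theorem cnt_succ (w : ℕ → Fin 4) (x : Fin 4) (a L : ℕ) :
    cnt w x a (L + 1) = cnt w x a L + if w (a + L) = x then 1 else 0 := by
  unfold cnt
  rw [Finset.sum_range_succ]

theorem cnt_sub {w : ℕ → Fin 4} {x : Fin 4} {a b c L : ℕ} (h1 : a ≤ c) (h2 : c + L ≤ b)
    (h3 : b ≤ a + L + 60) :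
    cnt w x c L ≤ cnt w x a (b - a) ∧ cnt w x a (b - a) ≤ cnt w x c L + 60 := by
  obtain ⟨d, rfl⟩ : ∃ d, c = a + d := ⟨c - a, by omega⟩
  obtain ⟨e, rfl⟩ : ∃ e, b = a + d + L + e := ⟨b - (a + d + L), by omega⟩
  have : a + d + L + e - a = d + (L + e) := by omega
  rw [this, cnt_add, cnt_add]
  have h4 := cnt_le w x a d
  have h5 := cnt_le w x (a + d + L) e
  omega

theorem Blocks.cnt_p {w : ℕ → Fin 4} {c M : ℕ} {p q : Fin 4} (h : Blocks w c M p q) :
    cnt w p c (4 * M) = M := by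
  have : ∀ m ≤ M, cnt w p c (4 * m) = m := by
    intro m
    induction m with
    | zero => intro _; simp [cnt]
    | succ m ih =>
      intro hm
      have h0 := h.h0 m (by omega)
      have h2 := h.h2 m (by omega)
      have h1 := h.h1 m (by omega)
      have h3 := h.h3 m (by omega)
      have hne := h.ne
      have e : 4 * (m + 1) = 4 * m + 1 + 1 + 1 + 1 := by ring
      rw [e, cnt_succ, cnt_succ, cnt_succ, cnt_succ, ih (by omega)]
      simp only [← add_assoc]
      rw [if_pos h0, if_neg h1.1, if_neg, if_neg h3.1]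
      simp only [add_assoc]
      rw [← add_assoc c, h2]
      exact hne.symm
  exact this M le_rfl

theorem Blocks.cnt_q {w : ℕ → Fin 4} {c M : ℕ} {p q : Fin 4} (h : Blocks w c M p q) :
    cnt w q c (4 * M) = M := by
  have : ∀ m ≤ M, cnt w q c (4 * m) = m := by
    intro m
    induction m with
    | zero => intro _; simp [cnt]
    | succ m ih =>
      intro hm
      have h0 := h.h0 m (by omega)
      have h2 := h.h2 m (by omega)
      have h1 := h.h1 m (by omega)
      have h3 := h.h3 m (by omega)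
      have hne := h.ne
      have e : 4 * (m + 1) = 4 * m + 1 + 1 + 1 + 1 := by ring
      rw [e, cnt_succ, cnt_succ, cnt_succ, cnt_succ, ih (by omega)]
      simp only [← add_assoc]
      rw [if_neg, if_neg h1.2, if_pos h2, if_neg h3.2]
      rw [h0]
      exact hne
  exact this M le_rfl

/-- The renormalized word. -/
def ren (w : ℕ → Fin 4) (c : ℕ) (r : Fin 4) (i : ℕ) : Fin 4 :=
  if w (c + 2 * i + 1) = r then (if i % 2 = 0 then 0 else 1) else (if i % 2 = 0 then 2 else 3)

theorem ren_eq {w : ℕ → Fin 4} {c : ℕ} {r : Fin 4} {x y : ℕ} (h : ren w c r x = ren w c r y) :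
    x % 2 = y % 2 ∧ (w (c + 2 * x + 1) = r ↔ w (c + 2 * y + 1) = r) := by
  have hx := Nat.mod_two_eq_zero_or_one x
  have hy := Nat.mod_two_eq_zero_or_one y
  unfold ren at h
  by_cases h1 : w (c + 2 * x + 1) = r <;> by_cases h2 : w (c + 2 * y + 1) = r <;>
    rcases hx with hx | hx <;> rcases hy with hy | hy <;> simp [h1, h2, hx, hy] at h ⊢

theorem Blocks.even {w : ℕ → Fin 4} {c M : ℕ} {p q : Fin 4} (h : Blocks w c M p q) {x y : ℕ}
    (hx : x < 2 * M) (hy : y < 2 * M) (hxy : x % 2 = y % 2) :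
    w (c + 2 * x) = w (c + 2 * y) := by
  have key : ∀ x, x < 2 * M → w (c + 2 * x) = if x % 2 = 0 then p else q := by
    intro x hx
    rcases Nat.mod_two_eq_zero_or_one x with h0 | h0
    · rw [if_pos h0]
      obtain ⟨i, rfl⟩ : ∃ i, x = 2 * i := ⟨x / 2, by omega⟩
      have := h.h0 i (by omega)
      rw [← this]; congr 1; ring
    · rw [if_neg (by omega)]
      obtain ⟨i, rfl⟩ : ∃ i, x = 2 * i + 1 := ⟨x / 2, by omega⟩
      have := h.h2 i (by omega)
      rw [← this]; congr 1; ring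
  rw [key x hx, key y hy, hxy]

theorem Blocks.odd {w : ℕ → Fin 4} {c M : ℕ} {p q : Fin 4} (h : Blocks w c M p q) {x : ℕ}
    (hx : x < 2 * M) : w (c + 2 * x + 1) ≠ p ∧ w (c + 2 * x + 1) ≠ q := by
  rcases Nat.mod_two_eq_zero_or_one x with h0 | h0
  · obtain ⟨i, rfl⟩ : ∃ i, x = 2 * i := ⟨x / 2, by omega⟩
    have := h.h1 i (by omega)
    have e : c + 2 * (2 * i) + 1 = c + 4 * i + 1 := by ring
    rw [e]; exact this
  · obtain ⟨i, rfl⟩ : ∃ i, x = 2 * i + 1 := ⟨x / 2, by omega⟩
    have := h.h3 i (by omega)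
    have e : c + 2 * (2 * i + 1) + 1 = c + 4 * i + 3 := by ring
    rw [e]; exact this

/-- Two distinct letters have two complementary letters. -/
theorem exists_compl : ∀ p q : Fin 4, p ≠ q → ∃ r s : Fin 4, r ≠ s ∧ r ≠ p ∧ r ≠ q ∧ s ≠ p ∧
    s ≠ q ∧ (∀ x : Fin 4, x = p ∨ x = q ∨ x = r ∨ x = s) := by
  decide

theorem Blocks.inst {w : ℕ → Fin 4} {c M : ℕ} {p q : Fin 4} (h : Blocks w c M p q) {r s : Fin 4}
    (hrs : ∀ x : Fin 4, x = p ∨ x = q ∨ x = r ∨ x = s) {n : ℕ}
    (hI : Inst (ren w c r) 0 (2 * M) n) : Inst w c (c + 4 * M) (2 * n) := by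
  have key : ∀ x y, x < 2 * M → y < 2 * M → ren w c r x = ren w c r y →
      w (c + 2 * x) = w (c + 2 * y) ∧ w (c + 2 * x + 1) = w (c + 2 * y + 1) := by
    intro x y hx hy hxy
    obtain ⟨h1, h2⟩ := ren_eq hxy
    refine ⟨h.even hx hy h1, ?_⟩
    have ox := h.odd hx
    have oy := h.odd hy
    rcases hrs (w (c + 2 * x + 1)) with h3 | h3 | h3 | h3
    · exact absurd h3 ox.1
    · exact absurd h3 ox.2
    · rw [h3, h2.1 h3]
    · rcases hrs (w (c + 2 * y + 1)) with h4 | h4 | h4 | h4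
      · exact absurd h4 oy.1
      · exact absurd h4 oy.2
      · rw [h4, h2.2 h4]
      · rw [h3, h4]
  have key2 : ∀ x y l, x + l ≤ 2 * M → y + l ≤ 2 * M →
      (∀ k < l, ren w c r (x + k) = ren w c r (y + k)) →
      ∀ k < 2 * l, w (c + 2 * x + k) = w (c + 2 * y + k) := by
    intro x y l hx hy hxy k hk
    have h1 := key (x + k / 2) (y + k / 2) (by omega) (by omega) (hxy (k / 2) (by omega))
    rcases Nat.mod_two_eq_zero_or_one k with h0 | h0
    · have e1 : c + 2 * x + k = c + 2 * (x + k / 2) := by omega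
      have e2 : c + 2 * y + k = c + 2 * (y + k / 2) := by omega
      rw [e1, e2]; exact h1.1
    · have e1 : c + 2 * x + k = c + 2 * (x + k / 2) + 1 := by omega
      have e2 : c + 2 * y + k = c + 2 * (y + k / 2) + 1 := by omega
      rw [e1, e2]; exact h1.2
  obtain ⟨la, lb, lc, p1, p2, p3, p4, p5, h1, h2, h3, h4, h5⟩ := hI
  refine ⟨2 * la, 2 * lb, 2 * lc, c + 2 * p1, c + 2 * p2, c + 2 * p3, c + 2 * p4, c + 2 * p5,
    by omega, by omega, ?_, ?_, ?_⟩
  · intro k hk
    have k1 := key2 p1 (p3 + lc) la (by omega) (by omega) (fun k hk => (h3 k hk).1) k hk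
    have k2 := key2 p1 (p4 + lb) la (by omega) (by omega) (fun k hk => (h3 k hk).2.1) k hk
    have k3 := key2 p1 p5 la (by omega) (by omega) (fun k hk => (h3 k hk).2.2) k hk
    rw [Nat.mul_add, ← Nat.add_assoc] at k1 k2
    exact ⟨k1, k2, k3⟩
  · intro k hk
    have k1 := key2 (p1 + la) p2 lb (by omega) (by omega) (fun k hk => (h4 k hk).1) k hk
    have k2 := key2 (p1 + la) p4 lb (by omega) (by omega) (fun k hk => (h4 k hk).2) k hk
    rw [Nat.mul_add, ← Nat.add_assoc] at k1 k2
    exact ⟨k1, k2⟩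
  · intro k hk
    have k1 := key2 (p2 + lb) p3 lc (by omega) (by omega) (fun k hk => (h5 k hk).1) k hk
    have k2 := key2 (p2 + lb) (p5 + la) lc (by omega) (by omega) (fun k hk => (h5 k hk).2) k hk
    rw [Nat.mul_add, ← Nat.add_assoc] at k1 k2
    rw [Nat.mul_add, ← Nat.add_assoc] at k2
    exact ⟨k1, k2⟩

theorem Blocks.cnt_r {w : ℕ → Fin 4} {c M : ℕ} {p q : Fin 4} (h : Blocks w c M p q) {r : Fin 4}
    (hp : r ≠ p) (hq : r ≠ q) :
    cnt w r c (4 * M) = cnt (ren w c r) 0 0 (2 * M) + cnt (ren w c r) 1 0 (2 * M) := by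
  have : ∀ m ≤ M, cnt w r c (4 * m) =
      cnt (ren w c r) 0 0 (2 * m) + cnt (ren w c r) 1 0 (2 * m) := by
    intro m
    induction m with
    | zero => intro _; simp [cnt]
    | succ m ih =>
      intro hm
      have h0 := h.h0 m (by omega)
      have h2 := h.h2 m (by omega)
      have hne := h.ne
      have e : 4 * (m + 1) = 4 * m + 1 + 1 + 1 + 1 := by ring
      have e' : 2 * (m + 1) = 2 * m + 1 + 1 := by ring
      rw [e, cnt_succ, cnt_succ, cnt_succ, cnt_succ, ih (by omega), e', cnt_succ, cnt_succ,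
        cnt_succ, cnt_succ]
      simp only [← add_assoc, zero_add]
      have e1 : w (c + 4 * m + 1 + 1) = w (c + 4 * m + 2) := rfl
      have e2 : w (c + 4 * m + 1 + 1 + 1) = w (c + 4 * m + 3) := rfl
      rw [e1, e2, h0, h2, if_neg hp.symm, if_neg hq.symm]
      have m0 : 2 * m % 2 = 0 := by omega
      have m1 : ¬ (2 * m + 1) % 2 = 0 := by omega
      have r0 : ren w c r (2 * m) = if w (c + 4 * m + 1) = r then 0 else 2 := by
        unfold ren
        have : c + 2 * (2 * m) + 1 = c + 4 * m + 1 := by ring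
        rw [this, if_pos m0, if_pos m0]
      have r1 : ren w c r (2 * m + 1) = if w (c + 4 * m + 3) = r then 1 else 3 := by
        unfold ren
        have : c + 2 * (2 * m + 1) + 1 = c + 4 * m + 3 := by ring
        rw [this, if_neg m1, if_neg m1]
      rw [r0, r1]
      by_cases q1 : w (c + 4 * m + 1) = r <;> by_cases q2 : w (c + 4 * m + 3) = r <;>
        simp [q1, q2] <;> omega
  exact this M le_rfl

theorem cnt_total (w : ℕ → Fin 4) (a L : ℕ) :
    cnt w 0 a L + cnt w 1 a L + cnt w 2 a L + cnt w 3 a L = L := by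
  induction L with
  | zero => simp [cnt]
  | succ L ih =>
    rw [cnt_succ, cnt_succ, cnt_succ, cnt_succ]
    have : ∀ y : Fin 4, (if y = 0 then 1 else 0) + (if y = 1 then 1 else 0) +
      (if y = 2 then 1 else 0) + (if y = 3 then 1 else 0) = 1 := by decide
    have := this (w (a + L))
    omega

end Pool.Agent.Lib.MP_3d374d_co
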