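import Pool.Agent.Lib.MP_3d374d_co.Cut

set_option autoImplicit false

namespace Pool.Agent.Lib.MP_3d374d_co

/-- The avoiding word. -/
def bw (n : ℕ) : Fin 4 :=
  if n % 2 = 0 then (if n % 4 = 0 then 0 else 2) else (if (bw (n / 2)).val < 2 then 1 else 3)
termination_by n
decreasing_by omega

theorem bw_even (n : ℕ) : bw (2 * n) = if n % 2 = 0 then 0 else 2 := by
  rw [bw, if_pos (by omega)]
  rcases Nat.mod_two_eq_zero_or_one n with h | h
  · rw [if_pos (by omega), if_pos h]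
  · rw [if_neg (by omega), if_neg (by omega)]

theorem bw_odd (n : ℕ) : bw (2 * n + 1) = if (bw n).val < 2 then 1 else 3 := by
  rw [bw, if_neg (by omega)]
  have : (2 * n + 1) / 2 = n := by omega
  rw [this]

theorem bw_val (x : ℕ) : (bw x).val % 2 = x % 2 := by
  rcases Nat.mod_two_eq_zero_or_one x with h | h
  · obtain ⟨n, rfl⟩ : ∃ n, x = 2 * n := ⟨x / 2, by omega⟩
    rw [bw_even]; split_ifs <;> simp
  · obtain ⟨n, rfl⟩ : ∃ n, x = 2 * n + 1 := ⟨x / 2, by omega⟩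
    rw [bw_odd, h]; split_ifs <;> simp

theorem bw_parity {x y : ℕ} (h : bw x = bw y) : x % 2 = y % 2 := by
  rw [← bw_val x, ← bw_val y, h]

theorem bw_even_iff {x y : ℕ} : bw (2 * x) = bw (2 * y) ↔ x % 2 = y % 2 := by
  rw [bw_even, bw_even]
  rcases Nat.mod_two_eq_zero_or_one x with h | h <;> rcases Nat.mod_two_eq_zero_or_one y with h' | h' <;>
    simp [h, h']

theorem fin_aux : ∀ u v : Fin 4, u.val % 2 = v.val % 2 →
    (if u.val < 2 then (1 : Fin 4) else 3) = (if v.val < 2 then 1 else 3) → u = v := by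
  decide

theorem bw_half {x y : ℕ} (h1 : x % 2 = y % 2) (h : bw (2 * x + 1) = bw (2 * y + 1)) :
    bw x = bw y := by
  rw [bw_odd, bw_odd] at h
  exact fin_aux _ _ (by rw [bw_val, bw_val, h1]) h

/-- Occurrences with explicit lengths and positions. -/
def Occs {α : Type*} (w : ℕ → α) (la lb lc p1 p2 p3 p4 p5 : ℕ) : Prop :=
    (∀ k < la, w (p1 + k) = w (p3 + lc + k) ∧ w (p1 + k) = w (p4 + lb + k) ∧
      w (p1 + k) = w (p5 + k)) ∧
    (∀ k < lb, w (p1 + la + k) = w (p2 + k) ∧ w (p1 + la + k) = w (p4 + k)) ∧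
    (∀ k < lc, w (p2 + lb + k) = w (p3 + k) ∧ w (p2 + lb + k) = w (p5 + la + k))

theorem bw_sub {x y l : ℕ} (h : ∀ k < 2 * l, bw (2 * x + k) = bw (2 * y + k)) :
    ∀ k < l, bw (x + k) = bw (y + k) := by
  intro k hk
  apply bw_half
  · have := h (2 * k) (by omega)
    rw [← mul_add, ← mul_add, bw_even_iff] at this
    exact this
  · have := h (2 * k + 1) (by omega)
    rw [← add_assoc, ← add_assoc, ← mul_add, ← mul_add] at this
    exact this

theorem occs_half {la lb lc p1 p2 p3 p4 p5 : ℕ}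
    (h : Occs bw (2 * la) (2 * lb) (2 * lc) (2 * p1) (2 * p2) (2 * p3) (2 * p4) (2 * p5)) :
    Occs bw la lb lc p1 p2 p3 p4 p5 := by
  obtain ⟨h1, h2, h3⟩ := h
  refine ⟨?_, ?_, ?_⟩
  · intro k hk
    exact ⟨bw_sub (x := p1) (y := p3 + lc) (l := la)
        (fun k hk => by rw [mul_add 2 p3 lc]; exact (h1 k hk).1) k hk,
      bw_sub (x := p1) (y := p4 + lb) (l := la)
        (fun k hk => by rw [mul_add 2 p4 lb]; exact (h1 k hk).2.1) k hk,
      bw_sub (x := p1) (y := p5) (l := la) (fun k hk => (h1 k hk).2.2) k hk⟩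
  · intro k hk
    exact ⟨bw_sub (x := p1 + la) (y := p2) (l := lb)
        (fun k hk => by rw [mul_add 2 p1 la]; exact (h2 k hk).1) k hk,
      bw_sub (x := p1 + la) (y := p4) (l := lb)
        (fun k hk => by rw [mul_add 2 p1 la]; exact (h2 k hk).2) k hk⟩
  · intro k hk
    exact ⟨bw_sub (x := p2 + lb) (y := p3) (l := lc)
        (fun k hk => by rw [mul_add 2 p2 lb]; exact (h3 k hk).1) k hk,
      bw_sub (x := p2 + lb) (y := p5 + la) (l := lc)
        (fun k hk => by rw [mul_add 2 p2 lb, mul_add 2 p5 la]; exact (h3 k hk).2) k hk⟩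

theorem occs_parity {la lb lc p1 p2 p3 p4 p5 : ℕ} (h : Occs bw la lb lc p1 p2 p3 p4 p5)
    (ha : 1 ≤ la) (hb : 1 ≤ lb) (hc : 1 ≤ lc) :
    la % 2 = 0 ∧ lb % 2 = 0 ∧ lc % 2 = 0 ∧ p2 % 2 = p1 % 2 ∧ p3 % 2 = p1 % 2 ∧ p4 % 2 = p1 % 2 ∧
      p5 % 2 = p1 % 2 := by
  obtain ⟨h1, h2, h3⟩ := h
  have a1 := bw_parity (h1 0 ha).1
  have a2 := bw_parity (h1 0 ha).2.1
  have a3 := bw_parity (h1 0 ha).2.2
  have b1 := bw_parity (h2 0 hb).1
  have b2 := bw_parity (h2 0 hb).2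
  have c1 := bw_parity (h3 0 hc).1
  have c2 := bw_parity (h3 0 hc).2
  omega

/-- Shift of an equality between odd positions, the words having length at least two. -/
theorem shift_aux {x y l : ℕ} (hxy : x % 2 = y % 2)
    (h : ∀ k < l, bw (2 * x + 1 + k) = bw (2 * y + 1 + k)) :
    ∀ k < l, bw (2 * x + k) = bw (2 * y + k) := by
  intro k hk
  rcases k with _ | k
  · simp only [add_zero]
    rw [bw_even_iff]; exact hxy
  · have := h k (by omega)
    have e : ∀ z, 2 * z + (k + 1) = 2 * z + 1 + k := by intro z; ring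
    rw [e, e]; exact this

theorem second_aux {x y l : ℕ} (hl : 2 ≤ l)
    (h : ∀ k < l, bw (2 * x + 1 + k) = bw (2 * y + 1 + k)) : x % 2 = y % 2 := by
  have := h 1 (by omega)
  have e : ∀ z, 2 * z + 1 + 1 = 2 * (z + 1) := by intro z; ring
  rw [e, e, bw_even_iff] at this
  omega

theorem no_occs : ∀ (N la lb lc p1 p2 p3 p4 p5 : ℕ), la + lb + lc ≤ N → 1 ≤ la → 1 ≤ lb →
    1 ≤ lc → ¬ Occs bw la lb lc p1 p2 p3 p4 p5 := by
  intro N
  induction N with
  | zero => intro la lb lc p1 p2 p3 p4 p5 h ha; omega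
  | succ N ih =>
    intro la lb lc p1 p2 p3 p4 p5 hN ha hb hc h
    obtain ⟨e1, e2, e3, e4, e5, e6, e7⟩ := occs_parity h ha hb hc
    obtain ⟨a, rfl⟩ : ∃ a, la = 2 * a := ⟨la / 2, by omega⟩
    obtain ⟨b, rfl⟩ : ∃ b, lb = 2 * b := ⟨lb / 2, by omega⟩
    obtain ⟨c, rfl⟩ : ∃ c, lc = 2 * c := ⟨lc / 2, by omega⟩
    rcases Nat.mod_two_eq_zero_or_one p1 with hp | hp
    · obtain ⟨q1, rfl⟩ : ∃ q, p1 = 2 * q := ⟨p1 / 2, by omega⟩
      obtain ⟨q2, rfl⟩ : ∃ q, p2 = 2 * q := ⟨p2 / 2, by omega⟩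
      obtain ⟨q3, rfl⟩ : ∃ q, p3 = 2 * q := ⟨p3 / 2, by omega⟩
      obtain ⟨q4, rfl⟩ : ∃ q, p4 = 2 * q := ⟨p4 / 2, by omega⟩
      obtain ⟨q5, rfl⟩ : ∃ q, p5 = 2 * q := ⟨p5 / 2, by omega⟩
      exact ih a b c q1 q2 q3 q4 q5 (by omega) (by omega) (by omega) (by omega) (occs_half h)
    · obtain ⟨q1, rfl⟩ : ∃ q, p1 = 2 * q + 1 := ⟨p1 / 2, by omega⟩
      obtain ⟨q2, rfl⟩ : ∃ q, p2 = 2 * q + 1 := ⟨p2 / 2, by omega⟩
      obtain ⟨q3, rfl⟩ : ∃ q, p3 = 2 * q + 1 := ⟨p3 / 2, by omega⟩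
      obtain ⟨q4, rfl⟩ : ∃ q, p4 = 2 * q + 1 := ⟨p4 / 2, by omega⟩
      obtain ⟨q5, rfl⟩ : ∃ q, p5 = 2 * q + 1 := ⟨p5 / 2, by omega⟩
      obtain ⟨h1, h2, h3⟩ := h
      have A1 : ∀ k < 2 * a, bw (2 * q1 + 1 + k) = bw (2 * (q3 + c) + 1 + k) := by
        intro k hk
        have e : 2 * (q3 + c) + 1 + k = 2 * q3 + 1 + 2 * c + k := by ring
        rw [e]; exact (h1 k hk).1
      have A2 : ∀ k < 2 * a, bw (2 * q1 + 1 + k) = bw (2 * (q4 + b) + 1 + k) := by
        intro k hk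
        have e : 2 * (q4 + b) + 1 + k = 2 * q4 + 1 + 2 * b + k := by ring
        rw [e]; exact (h1 k hk).2.1
      have A3 : ∀ k < 2 * a, bw (2 * q1 + 1 + k) = bw (2 * q5 + 1 + k) := fun k hk => (h1 k hk).2.2
      have B1 : ∀ k < 2 * b, bw (2 * (q1 + a) + 1 + k) = bw (2 * q2 + 1 + k) := by
        intro k hk
        have e : 2 * (q1 + a) + 1 + k = 2 * q1 + 1 + 2 * a + k := by ring
        rw [e]; exact (h2 k hk).1
      have B2 : ∀ k < 2 * b, bw (2 * (q1 + a) + 1 + k) = bw (2 * q4 + 1 + k) := by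
        intro k hk
        have e : 2 * (q1 + a) + 1 + k = 2 * q1 + 1 + 2 * a + k := by ring
        rw [e]; exact (h2 k hk).2
      have C1 : ∀ k < 2 * c, bw (2 * (q2 + b) + 1 + k) = bw (2 * q3 + 1 + k) := by
        intro k hk
        have e : 2 * (q2 + b) + 1 + k = 2 * q2 + 1 + 2 * b + k := by ring
        rw [e]; exact (h3 k hk).1
      have C2 : ∀ k < 2 * c, bw (2 * (q2 + b) + 1 + k) = bw (2 * (q5 + a) + 1 + k) := by
        intro k hk
        have e : 2 * (q2 + b) + 1 + k = 2 * q2 + 1 + 2 * b + k := by ring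
        have e' : 2 * (q5 + a) + 1 + k = 2 * q5 + 1 + 2 * a + k := by ring
        rw [e, e']; exact (h3 k hk).2
      have m1 := second_aux (by omega) A1
      have m2 := second_aux (by omega) A2
      have m3 := second_aux (by omega) A3
      have m4 := second_aux (by omega) B1
      have m5 := second_aux (by omega) B2
      have m6 := second_aux (by omega) C1
      have m7 := second_aux (by omega) C2
      refine ih a b c q1 q2 q3 q4 q5 (by omega) (by omega) (by omega) (by omega)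
        ⟨?_, ?_, ?_⟩
      · intro k hk
        exact ⟨bw_sub (shift_aux m1 A1) k hk, bw_sub (shift_aux m2 A2) k hk,
          bw_sub (shift_aux m3 A3) k hk⟩
      · intro k hk
        exact ⟨bw_sub (shift_aux m4 B1) k hk, bw_sub (shift_aux m5 B2) k hk⟩
      · intro k hk
        exact ⟨bw_sub (shift_aux m6 C1) k hk, bw_sub (shift_aux m7 C2) k hk⟩

end Pool.Agent.Lib.MP_3d374d_co
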